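import Pool.Agent.helper47.TFQ.Spec

/-! # Project tfq, module QD8: the zeros of the function `Φ` -/

set_option autoImplicit false

namespace Pool.Agent.TFQ

open Polynomial Pool.Agent.GJ Pool.Agent.TK
open Pool.Agent.FJ (VT Om chiO IsFrobO rf rs)
open Pool.Agent.TD (zK)

noncomputable section

theorem QD8_root {K : Type} [Field K] {l : ℕ} (hl : (l : K) ≠ 0) (T Y : PowerSeries K)
    (h : T ^ l = Y ^ l) (hc : PowerSeries.constantCoeff T = PowerSeries.constantCoeff Y)
    (hne : PowerSeries.constantCoeff Y ≠ 0) : T = Y := by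
  have h1 := (Commute.all T Y).geom_sum₂_mul l
  rw [h, sub_self] at h1
  rcases mul_eq_zero.mp h1 with h2 | h2
  · exfalso
    have h3 := congrArg (PowerSeries.constantCoeff (R := K)) h2
    rw [map_zero, map_sum] at h3
    have h4 : ∀ i ∈ Finset.range l, PowerSeries.constantCoeff (R := K) (T ^ i * Y ^ (l - 1 - i)) =
        PowerSeries.constantCoeff Y ^ (l - 1) := by
      intro i hi
      rw [map_mul, map_pow, map_pow, hc, ← pow_add]
      congr 1
      have := Finset.mem_range.mp hi
      omega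
    rw [Finset.sum_congr rfl h4, Finset.sum_const, Finset.card_range, nsmul_eq_mul] at h3
    exact (mul_ne_zero hl (pow_ne_zero _ hne)) h3
  · exact sub_eq_zero.mp h2

theorem QD8_deg {F : Type} [Field F] {k : ℕ} (c : Fin k → F) : (gq c).natDegree ≤ k := by
  unfold gq
  refine (natDegree_add_le _ _).trans (max_le (natDegree_X_pow_le k) ?_)
  refine natDegree_sum_le_of_forall_le _ _ fun i _ => ?_
  exact (natDegree_C_mul_X_pow_le _ _).trans i.2.le

theorem QD8_coeff {F : Type} [Field F] {k : ℕ} (c : Fin k → F) (i : Fin k) : (gq c).coeff i = c i := by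
  unfold gq
  rw [coeff_add, coeff_X_pow, if_neg (by have := i.2; omega), zero_add, finsetSum_coeff,
    Finset.sum_eq_single i]
  · rw [coeff_C_mul_X_pow, if_pos rfl]
  · intro j _ hj
    rw [coeff_C_mul_X_pow, if_neg]
    intro h
    exact hj (Fin.ext h).symm
  · intro h
    exact absurd (Finset.mem_univ i) h

theorem QD8_inj {F : Type} [Field F] {k n : ℕ} (a : Fin (n + 1) → F) (ha : Function.Injective a)
    (hk : k ≤ n) (c c' : Fin k → F) (h : ∀ j, (gq c).eval (a j) = (gq c').eval (a j)) :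
    c = c' := by
  have h1 : gq c - gq c' = 0 := by
    apply eq_zero_of_natDegree_lt_card_of_eval_eq_zero _ ha
    · intro i
      rw [eval_sub, h, sub_self]
    · rw [Fintype.card_fin]
      have h2 := natDegree_sub_le (gq c) (gq c')
      have h3 := QD8_deg c
      have h4 := QD8_deg c'
      have h5 : max (gq c).natDegree (gq c').natDegree ≤ k := max_le h3 h4
      omega
  funext i
  rw [← QD8_coeff c i, ← QD8_coeff c' i, sub_eq_zero.mp h1]

theorem QD8 (h1 : TK.KD1_stmt) (h2 : TK.KD2_stmt) (h3 : TK.KD3_stmt) (h4 : QP4_stmt) : QD8_stmt := by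
  intro F _ _ _ K _ _ p M l α n _ _ e hcF _ _ μ a _ q v Q Φ hl hlα hα hu hv hprod hΦ hQ
  have hp : p.Prime := Fact.out
  have hlp : l.Prime := Fact.out
  have hcst : Function.Injective e := e.injective
  have ha : Function.Injective a := by
    intro i j hij
    apply Good.inj (K := K) (l := l) (μ := μ) (a := bQ e a)
    show e (a i) = e (a j)
    rw [hij]
  have hαe : (-1 : F) ^ α = 1 := neg_one_pow_al hlp hl hlα
  have hcF0 : ((cq F : ℕ) : K) = 0 := by
    have h5 : ((cq F : ℕ) : F) = 0 := FiniteField.cast_card_eq_zero F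
    have h6 := congrArg e h5
    rwa [map_natCast, map_zero] at h6
  have hcF1 : 1 ≤ cq F := Fintype.card_pos
  have hpK : ((cq F - 1 : ℕ) : K) ≠ 0 := by
    rw [Nat.cast_sub hcF1, hcF0, zero_sub, Nat.cast_one]
    exact neg_ne_zero.mpr one_ne_zero
  rw [h3 K l n μ (bQ e a)]
  intro q' hq'
  obtain ⟨k0, hk0, c0, hc0, hqq⟩ : ∃ k0 ≤ n, ∃ c0 ∈ Gq a k0, q' = Q k0 c0 := by
    rw [dQQ, Multiset.mem_sum] at hq'
    obtain ⟨k0, hk0, h5⟩ := hq'
    rw [Multiset.mem_sum] at h5
    obtain ⟨c0, hc0, h6⟩ := h5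
    exact ⟨k0, by have := Finset.mem_range.mp hk0; omega, c0, hc0, Multiset.mem_singleton.mp h6⟩
  subst hqq
  classical
  have hcount : Multiset.count (Q k0 c0) (dQQ e a Q) =
      ((Gq a k0).filter (fun c => Q k0 c = Q k0 c0)).card := by
    rw [dQQ, Multiset.count_sum', Finset.sum_eq_single k0]
    · rw [Multiset.count_sum', Finset.card_filter]
      refine Finset.sum_congr rfl fun c _ => ?_
      rw [Multiset.count_singleton]
      by_cases h : Q k0 c = Q k0 c0
      · rw [if_pos h, if_pos h.symm]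
      · rw [if_neg h, if_neg (fun h' => h h'.symm)]
    · intro k hk hkk
      rw [Multiset.count_sum']
      refine Finset.sum_eq_zero fun c hc => ?_
      rw [Multiset.count_singleton, if_neg]
      intro heq
      have hk' : k ≤ n := by have := Finset.mem_range.mp hk; omega
      have h5 := congrArg (fun z => z.1.1) heq
      simp only [hQ k0 hk0 c0 hc0, hQ k hk' c hc] at h5
      rcases lt_or_gt_of_ne hkk with h6 | h6
      · exact hu (n - k0) (n - k) (by omega) (by omega) h5
      · exact hu (n - k) (n - k0) (by omega) (by omega) h5.symm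
    · intro h
      exact absurd (Finset.mem_range.mpr (by omega)) h
  set m := n - k0 with hm
  have hQ0 := hQ k0 hk0 c0 hc0
  rw [← hm] at hQ0
  have hQu : (Q k0 c0).1.1 = q.1.1 ^ cq F ^ m := by rw [hQ0]
  have hQv : (Q k0 c0).1.2 = e (chq α μ fun j => (gq c0).eval (a j)) * q.1.2 ^ cq F ^ m := by
    rw [hQ0]
  have hc0' : ∀ j, (gq c0).eval (a j) ≠ 0 := (Finset.mem_filter.mp hc0).2
  obtain ⟨E, hE1, hE2, hE3, hE4⟩ := h2 K l n μ (bQ e a) (Q k0 c0)
  -- the roots
  set V : Fin (n + 1) → K := fun j => v j ^ cq F ^ m with hV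
  set G0 : Fin (n + 1) → K := fun j => e ((gq c0).eval (a j)) with hG0
  have hfr : ∀ x y : K, (x - y) ^ cq F ^ m = x ^ cq F ^ m - y ^ cq F ^ m := by
    intro x y
    rw [hcF, ← pow_mul, sub_pow_char_pow]
  have hVp : ∀ j, V j ^ (cq F - 1) = q.1.1 ^ cq F ^ m - bQ e a j := by
    intro j
    simp only [hV]
    rw [← pow_mul, mul_comm, pow_mul, (hv j).2, hfr]
    congr 1
    show (e (a j)) ^ cq F ^ m = e (a j)
    rw [← map_pow, FiniteField.pow_card_pow]
  have hG0ne : ∀ j, G0 j ≠ 0 := by
    intro j h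
    apply hc0' j
    apply hcst
    rw [map_zero]
    exact h
  have hG0p : ∀ j, G0 j ^ (cq F - 1) = 1 := by
    intro j
    show (e ((gq c0).eval (a j))) ^ (cq F - 1) = 1
    rw [← map_pow, FiniteField.pow_card_sub_one_eq_one _ (hc0' j), map_one]
  have hVne : ∀ j, V j ≠ 0 := fun j => pow_ne_zero _ (hv j).1
  have hEx : ∀ j, E (CR.x - algebraMap K _ (bQ e a j)) =
      PowerSeries.C (q.1.1 ^ cq F ^ m) + PowerSeries.X - PowerSeries.C (bQ e a j) := by
    intro j
    rw [map_sub, hE1, hE2, hQu]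
  have hroot : ∀ j, ∃ g : PowerSeries K, g ^ (cq F - 1) = E (CR.x - algebraMap K _ (bQ e a j)) ∧
      PowerSeries.constantCoeff g = V j * G0 j := by
    intro j
    apply h1 K (cq F - 1) _ (V j * G0 j) hpK (mul_ne_zero (hVne j) (hG0ne j))
    rw [hEx, map_sub, map_add, PowerSeries.constantCoeff_C, PowerSeries.constantCoeff_X,
      PowerSeries.constantCoeff_C, add_zero, mul_pow, hG0p, mul_one, hVp]
  choose t ht htc using hroot
  have hT : E CR.y = ∏ j, t j ^ (μ j * α) := by
    symm
    apply QD8_root (NeZero.ne (l : K))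
    · rw [← map_pow, CR.rel, CR.pol_fp, map_prod, ← Finset.prod_pow]
      refine Finset.prod_congr rfl fun j _ => ?_
      rw [map_pow, ← ht, ← pow_mul, ← pow_mul]
      congr 1
      rw [mul_assoc, mul_comm α l, hlα, mul_comm]
    · rw [hE3, ev_y, hQv, map_prod]
      have h5 : ∀ j ∈ Finset.univ, PowerSeries.constantCoeff (R := K) (t j ^ (μ j * α)) =
          (v j ^ (μ j * α)) ^ cq F ^ m * e ((gq c0).eval (a j) ^ (μ j * α)) := by
        intro j _
        rw [map_pow, htc, mul_pow, map_pow]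
        simp only [hV, hG0]
        rw [← pow_mul, ← pow_mul, mul_comm (cq F ^ m)]
      rw [Finset.prod_congr rfl h5, Finset.prod_mul_distrib, Finset.prod_pow, hprod, mul_comm]
      rw [chq, map_prod]
    · rw [hE3, ev_y]
      exact (Q k0 c0).2.2.ne_zero
  have hEΦ := hΦ (PowerSeries K) E t ht hT
  rw [hE4 Φ]
  rw [hEΦ]
  -- the factors
  have key : ∀ c ∈ (Gq a k0).filter (fun c => Q k0 c = Q k0 c0),
      ∃ w ∈ HQ (F := F) α μ, ∀ j, (w j : F) * (gq c0).eval (a j) =
        (-1) ^ m * (gq c).eval (a j) := by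
    intro c hc
    obtain ⟨hc1, hc2⟩ := Finset.mem_filter.mp hc
    have hc1' : ∀ j, (gq c).eval (a j) ≠ 0 := (Finset.mem_filter.mp hc1).2
    have hne : ∀ j, (-1) ^ m * (gq c).eval (a j) / (gq c0).eval (a j) ≠ 0 := fun j =>
      div_ne_zero (mul_ne_zero (pow_ne_zero _ (neg_ne_zero.mpr one_ne_zero)) (hc1' j)) (hc0' j)
    refine ⟨fun j => Units.mk0 _ (hne j), ?_, ?_⟩
    · rw [HQ, Finset.mem_filter]
      refine ⟨Finset.mem_univ _, ?_⟩
      have h5 : chq α μ (fun j => (gq c).eval (a j)) = chq α μ (fun j => (gq c0).eval (a j)) := by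
        have h6 := congrArg (fun z => z.1.2) hc2
        simp only [hQ k0 hk0 c0 hc0, hQ k0 hk0 c hc1] at h6
        have h7 : q.1.2 ^ cq F ^ (n - k0) ≠ 0 := pow_ne_zero _ q.2.2.ne_zero
        exact hcst (mul_right_cancel₀ h7 h6)
      have h6 : chq α μ (fun j => (gq c0).eval (a j)) ≠ 0 := by
        rw [chq, Finset.prod_ne_zero_iff]
        exact fun j _ => pow_ne_zero _ (hc0' j)
      have h7 : chq α μ (fun j => (Units.mk0 _ (hne j) : F)) =
          chq α μ (fun j => (gq c).eval (a j)) / chq α μ (fun j => (gq c0).eval (a j)) := by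
        simp only [chq, Units.val_mk0]
        rw [← Finset.prod_div_distrib]
        refine Finset.prod_congr rfl fun j _ => ?_
        rw [div_pow, mul_pow, ← pow_mul]
        have h8 : (-1 : F) ^ (m * (μ j * α)) = 1 := by
          rw [← mul_assoc, mul_comm, pow_mul, hαe, one_pow]
        rw [h8, one_mul]
      rw [h7, h5, div_self h6]
    · intro j
      rw [Units.val_mk0, div_mul_cancel₀ _ (hc0' j)]
  choose! W hW1 hW2 using key
  have hWinj : Set.InjOn W ((Gq a k0).filter (fun c => Q k0 c = Q k0 c0) : Finset _) := by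
    intro c hc c' hc' hcc
    have hc := Finset.mem_coe.mp hc
    have hc' := Finset.mem_coe.mp hc'
    apply QD8_inj a ha hk0
    intro j
    have h5 := hW2 c hc j
    rw [hcc, hW2 c' hc' j] at h5
    exact (mul_left_cancel₀ (pow_ne_zero _ (neg_ne_zero.mpr one_ne_zero)) h5).symm
  have hsub : ((Gq a k0).filter (fun c => Q k0 c = Q k0 c0)).image W ⊆ HQ (F := F) α μ := by
    intro w hw
    obtain ⟨c, hc, rfl⟩ := Finset.mem_image.mp hw
    exact hW1 c hc
  refine dvd_trans ?_ (Finset.prod_dvd_prod_of_subset _ _ _ hsub)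
  have hcard : Multiset.count (Q k0 c0) (dQQ e a Q) =
      (((Gq a k0).filter (fun c => Q k0 c = Q k0 c0)).image W).card := by
    rw [hcount, Finset.card_image_of_injOn hWinj]
  have hX : ∀ w ∈ ((Gq a k0).filter (fun c => Q k0 c = Q k0 c0)).image W,
      (PowerSeries.X : PowerSeries K) ∣
        (∑ j, E (algebraMap K _ ((fun j => e (lm a j) / v j) j * e (w j : F))) *
          t j - 1) := by
    intro w hw
    obtain ⟨c, hc, rfl⟩ := Finset.mem_image.mp hw
    rw [PowerSeries.X_dvd_iff, map_sub, map_one, map_sum]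
    have hc1 := (Finset.mem_filter.mp hc).1
    have h5 := h4 F K p M n e hcF a ha k0 m (by omega) c hc1 q.1.1 v hv
    rw [← h5, sub_eq_zero]
    refine Finset.sum_congr rfl fun j _ => ?_
    rw [map_mul, hE1, PowerSeries.constantCoeff_C, htc]
    simp only [hV, hG0]
    have h6 : e (W c j : F) * e ((gq c0).eval (a j)) =
        (-1) ^ m * e ((gq c).eval (a j)) := by
      rw [← map_mul, hW2 c hc j, map_mul, map_pow, map_neg, map_one]
    calc e (lm a j) / v j * e (W c j : F) *
          (v j ^ cq F ^ m * e ((gq c0).eval (a j)))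
        = e (lm a j) / v j * (e (W c j : F) * e ((gq c0).eval (a j))) *
          v j ^ cq F ^ m := by ring
      _ = _ := by
        rw [h6]
        ring
  have hfin := Finset.prod_dvd_prod_of_dvd (s := ((Gq a k0).filter (fun c => Q k0 c = Q k0 c0)).image W)
    (fun _ => (PowerSeries.X : PowerSeries K)) _ hX
  rw [Finset.prod_const, ← hcard] at hfin
  exact hfin

end

end Pool.Agent.TFQ
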